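import Mathlib

set_option autoImplicit false

/-! Counting multi-indices of bounded degree (for NU-Q7). -/

noncomputable section

namespace Pool.Agent.helper63.NU.Q7

open Finset

/-- multi-indices of degree `< m` -/
def T (n m : ℕ) : Finset (Fin n → ℕ) :=
  (Fintype.piFinset fun _ => range m).filter fun β => ∑ a, β a < m

theorem mem_T {n m : ℕ} {β : Fin n → ℕ} : β ∈ T n m ↔ ∑ a, β a < m := by
  unfold T
  rw [mem_filter, Fintype.mem_piFinset]
  refine ⟨fun h => h.2, fun h => ⟨fun a => mem_range.2 ?_, h⟩⟩
  exact lt_of_le_of_lt (single_le_sum (f := β) (fun _ _ => Nat.zero_le _) (mem_univ a)) h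

theorem card_T (n : ℕ) : ∀ m : ℕ, (T n (m + 1)).card = (m + n).choose n := by
  induction n with
  | zero =>
    intro m
    have : T 0 (m + 1) = {fun a => a.elim0} := by
      ext β
      rw [mem_T, mem_singleton]
      constructor
      · intro _; funext a; exact a.elim0
      · rintro rfl; simp
    rw [this]; simp
  | succ n ihn =>
    intro m
    induction m with
    | zero =>
      have : T (n + 1) (0 + 1) = {fun _ => 0} := by
        ext β
        rw [mem_T, mem_singleton]
        constructor
        · intro h
          funext a
          have := single_le_sum (f := β) (fun _ _ => Nat.zero_le _) (mem_univ a)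
          omega
        · rintro rfl; simp
      rw [this]; simp
    | succ m ihm =>
      have hi1 : Function.Injective (fun γ : Fin n → ℕ => (Fin.cons 0 γ : Fin (n + 1) → ℕ)) := by
        intro γ γ' h
        funext i
        have := congrFun h i.succ
        simpa using this
      have hi2 : Function.Injective (fun β : Fin (n + 1) → ℕ => β + Pi.single 0 1) := by
        intro β β' h
        exact add_right_cancel h
      have h1 : T (n + 1) (m + 1 + 1)
          = (T n (m + 1 + 1)).image (fun γ => (Fin.cons 0 γ : Fin (n + 1) → ℕ))
            ∪ (T (n + 1) (m + 1)).image (fun β => β + Pi.single 0 1) := by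
        ext β
        simp only [mem_union, mem_image, mem_T]
        constructor
        · intro h
          rcases Nat.eq_zero_or_pos (β 0) with h0 | h0
          · left
            refine ⟨Fin.tail β, ?_, ?_⟩
            · rw [Fin.sum_univ_succ, h0] at h
              simpa [Fin.tail] using h
            · rw [← h0]; exact Fin.cons_self_tail β
          · right
            refine ⟨β - Pi.single 0 1, ?_, ?_⟩
            · rw [Fin.sum_univ_succ] at h ⊢
              have h2 : ∀ i : Fin n, (β - Pi.single 0 1 : Fin (n + 1) → ℕ) i.succ = β i.succ := by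
                intro i; simp
              simp only [h2]
              have h3 : (β - Pi.single 0 1 : Fin (n + 1) → ℕ) 0 = β 0 - 1 := by simp
              rw [h3]
              omega
            · funext i
              refine Fin.cases ?_ (fun i => ?_) i
              · simp only [Pi.add_apply, Pi.sub_apply, Pi.single_eq_same]; omega
              · simp
        · rintro (⟨γ, hγ, rfl⟩ | ⟨γ, hγ, rfl⟩)
          · rw [Fin.sum_univ_succ]
            simp only [Fin.cons_zero, Fin.cons_succ, zero_add]
            exact hγ
          · have : ∑ a, (γ + Pi.single 0 1 : Fin (n + 1) → ℕ) a = ∑ a, γ a + 1 := by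
              simp [sum_add_distrib, Pi.single_apply]
            rw [this]; omega
      rw [h1, card_union_of_disjoint, card_image_of_injective _ hi1,
        card_image_of_injective _ hi2, ihn, ihm]
      · rw [show m + 1 + (n + 1) = (m + 1 + n) + 1 by ring, Nat.choose_succ_succ,
          show m + (n + 1) = m + 1 + n by ring]
      · rw [disjoint_left]
        intro β h2 h3
        rw [mem_image] at h2 h3
        obtain ⟨γ, -, rfl⟩ := h2
        obtain ⟨γ', -, h4⟩ := h3
        have := congrFun h4 0
        simp at this

theorem card_T_ge (n : ℕ) (α : Fin n → ℕ) {m : ℕ} :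
    ((T n (∑ a, α a + m + 1)).filter fun β => ∀ a, α a ≤ β a).card = (m + n).choose n := by
  rw [← card_T n m]
  symm
  refine card_bij (fun β _ => β + α) ?_ ?_ ?_
  · intro β hβ
    rw [mem_filter, mem_T]
    rw [mem_T] at hβ
    refine ⟨?_, fun a => by simp⟩
    simp only [Pi.add_apply, sum_add_distrib]
    omega
  · intro β _ β' _ h
    simpa using h
  · intro β hβ
    rw [mem_filter, mem_T] at hβ
    refine ⟨β - α, ?_, ?_⟩
    · rw [mem_T]
      have h1 : ∑ a, (β - α) a + ∑ a, α a = ∑ a, β a := by
        rw [← sum_add_distrib]
        refine sum_congr rfl fun a _ => ?_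
        have := hβ.2 a
        simp only [Pi.sub_apply]
        omega
      omega
    · funext a
      have := hβ.2 a
      simp only [Pi.sub_apply, Pi.add_apply]
      omega

/-- the sum over the levels -/
theorem sum_choose (n i0 D : ℕ) :
    ∑ m ∈ Icc (i0 + 1) D, ((m - 1 - i0 + n).choose n : ℝ)
      ≥ ((D - i0 : ℕ) : ℝ) ^ (n + 1) / (n + 1).factorial := by
  have h1 : ∑ m ∈ Icc (i0 + 1) D, ((m - 1 - i0 + n).choose n : ℝ)
      = ∑ m ∈ range (D - i0), ((m + n).choose n : ℝ) := by
    symm
    refine sum_bij (fun m _ => m + i0 + 1) ?_ ?_ ?_ ?_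
    · intro m hm
      rw [mem_range] at hm
      rw [mem_Icc]
      omega
    · intro m _ m' _ h
      omega
    · intro m hm
      rw [mem_Icc] at hm
      exact ⟨m - 1 - i0, by rw [mem_range]; omega, by omega⟩
    · intro m _
      have : m + i0 + 1 - 1 - i0 + n = m + n := by omega
      rw [this]
  have h2 : ∀ D' : ℕ, ∑ m ∈ range D', ((m + n).choose n : ℝ) = ((D' + n).choose (n + 1) : ℝ) := by
    intro D'
    induction D' with
    | zero => simp
    | succ D' ih =>
      rw [sum_range_succ, ih, show D' + 1 + n = (D' + n) + 1 by ring, Nat.choose_succ_succ]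
      push_cast
      ring
  rw [h1, h2]
  have h3 := Nat.pow_le_choose (α := ℝ) (n + 1) (D - i0 + n)
  have h4 : D - i0 + n + 1 - (n + 1) = D - i0 := by omega
  rw [h4] at h3
  exact h3

end Pool.Agent.helper63.NU.Q7
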