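import Pool.Agent.helper31.NU.PDefs
import Pool.Agent.helper41.NU.A1
import Pool.Agent.helper41.NU.A2

set_option autoImplicit false
set_option linter.all false

/-! Module P8: calculus in the homogeneous model. -/

open MeasureTheory Filter Topology Set
open scoped ContDiff ComplexOrder

noncomputable section

namespace Pool.Agent.helper31.NU

open Pool.Agent.helper63.NU (E dz db lev)

namespace P8

open Pool.Agent.helper63.NU

variable {m : ℕ} {F H K : E m → ℝ} {z : E m}

theorem isOpen_cp : IsOpen ({0}ᶜ : Set (E m)) := isOpen_compl_singleton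

theorem contDiffOn_cx (hF : SH F) : ContDiffOn ℝ ∞ (cx F) {0}ᶜ :=
  Complex.ofRealCLM.contDiff.comp_contDiffOn hF.smooth

theorem diffAt_cx (hF : SH F) (hz : z ≠ 0) : DifferentiableAt ℝ (cx F) z :=
  ((contDiffOn_cx hF).contDiffAt (isOpen_cp.mem_nhds hz)).differentiableAt (by simp)

theorem diffAt (hF : SH F) (hz : z ≠ 0) : DifferentiableAt ℝ F z :=
  (hF.smooth.contDiffAt (isOpen_cp.mem_nhds hz)).differentiableAt (by simp)

theorem contDiffAt2 (hF : SH F) (hz : z ≠ 0) : ContDiffAt ℝ 2 F z :=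
  (hF.smooth.contDiffAt (isOpen_cp.mem_nhds hz)).of_le (by norm_cast)

theorem diffAt_db (hF : SH F) (hz : z ≠ 0) (a : Fin m) : DifferentiableAt ℝ (db a (cx F)) z :=
  ((contDiffOn_db isOpen_cp (contDiffOn_cx hF) a).contDiffAt
    (isOpen_cp.mem_nhds hz)).differentiableAt (by simp)

theorem ev_ne (hz : z ≠ 0) : ∀ᶠ w in 𝓝 z, w ≠ 0 := isOpen_cp.mem_nhds hz

/-- `∂F = conj ∂̄F` for real `F` -/
theorem dz_real (F : E m → ℝ) (z : E m) (a : Fin m) :
    dz a (cx F) z = (starRingEnd ℂ) (db a (cx F) z) := by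
  rw [← dz_conj]
  congr 1
  funext w
  exact (Complex.conj_ofReal _).symm

theorem db_real (F : E m → ℝ) (z : E m) (a : Fin m) :
    db a (cx F) z = (starRingEnd ℂ) (dz a (cx F) z) := by
  rw [dz_real, Complex.conj_conj]

theorem rr_nonneg (z : E m) : 0 ≤ rr z := Finset.sum_nonneg fun _ _ => by positivity

theorem rr_pos (hz : z ≠ 0) : 0 < rr z := by
  obtain ⟨j, hj⟩ := Function.ne_iff.1 hz
  refine Finset.sum_pos' (fun _ _ => by positivity) ⟨j, Finset.mem_univ _, ?_⟩
  have : 0 < ‖z j‖ := norm_pos_iff.2 hj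
  positivity

theorem contDiff_rr : ContDiff ℝ ∞ (rr : E m → ℝ) := by
  unfold rr
  refine ContDiff.sum fun j _ => ?_
  have h : ContDiff ℝ ∞ (fun z : E m => z j) := contDiff_apply ℝ ℂ j
  exact (contDiff_norm_sq ℝ).comp h

theorem rr_smul (c : ℂ) (z : E m) : rr (c • z) = ‖c‖ ^ 2 * rr z := by
  unfold rr
  rw [Finset.mul_sum]
  refine Finset.sum_congr rfl fun j _ => ?_
  rw [Pi.smul_apply, smul_eq_mul, norm_mul, mul_pow]

theorem fderiv_smul (c : ℂ) (y v : E m) : fderiv ℂ (fun z : E m => c • z) y v = c • v := by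
  have h : HasFDerivAt (fun z : E m => c • z) (c • ContinuousLinearMap.id ℂ (E m)) y :=
    (hasFDerivAt_id y).const_smul c
  rw [h.fderiv]
  rfl

theorem hom_fun (hF : SH F) {c : ℂ} (hc : c ≠ 0) : (fun z => F (c • z)) = F := by
  funext w
  exact hF.hom c w hc

theorem lev_smul (hF : SH F) {c : ℂ} (hc : c ≠ 0) (hz : z ≠ 0) (j k : Fin m) :
    lev F z j k = c * lev F (c • z) j k * (starRingEnd ℂ) c := by
  have hcz : c • z ≠ 0 := smul_ne_zero hc hz
  have h := lev_comp (τ := fun z : E m => c • z) (ψ := F) (y := z)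
    ((c • ContinuousLinearMap.id ℂ (E m)).analyticAt z) (contDiffAt2 hF hcz) j k
  rw [hom_fun hF hc] at h
  rw [h]
  simp only [fderiv_smul]
  rw [Finset.sum_eq_single j]
  · rw [Finset.sum_eq_single k]
    · simp
    · intro l _ hl
      simp [Pi.single_eq_of_ne hl]
    · intro h; exact absurd (Finset.mem_univ _) h
  · intro i _ hi
    refine Finset.sum_eq_zero fun l _ => ?_
    simp [Pi.single_eq_of_ne hi]
  · intro h; exact absurd (Finset.mem_univ _) h

theorem dz_smul (hF : SH F) {c : ℂ} (hc : c ≠ 0) (hz : z ≠ 0) (j : Fin m) :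
    dz j (cx F) z = dz j (cx F) (c • z) * c := by
  have hcz : c • z ≠ 0 := smul_ne_zero hc hz
  have hτ : DifferentiableAt ℂ (fun z : E m => c • z) z := by fun_prop
  have h := dz_comp (τ := fun z : E m => c • z) (f := cx F) (y := z) hτ (diffAt_cx hF hcz) j
  have e : (fun z => cx F (c • z)) = cx F := by
    funext w
    simp only [cx, hF.hom c w hc]
  rw [e] at h
  rw [h]
  simp only [fderiv_smul]
  rw [Finset.sum_eq_single j]
  · simp
  · intro i _ hi
    simp [Pi.single_eq_of_ne hi]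
  · intro h; exact absurd (Finset.mem_univ _) h

theorem db_smul (hF : SH F) {c : ℂ} (hc : c ≠ 0) (hz : z ≠ 0) (j : Fin m) :
    db j (cx F) z = db j (cx F) (c • z) * (starRingEnd ℂ) c := by
  rw [db_real, dz_smul hF hc hz j, map_mul, ← db_real]

end P8

open P8

variable {m : ℕ} {F H K : E m → ℝ} {z : E m}

theorem SH.const (c : ℝ) : SH (fun _ : E m => c) := ⟨contDiffOn_const, fun _ _ _ => rfl⟩

theorem SH.add (hF : SH F) (hH : SH H) : SH (F + H) :=
  ⟨hF.smooth.add hH.smooth, fun c z hc => by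
    simp only [Pi.add_apply, hF.hom c z hc, hH.hom c z hc]⟩

theorem SH.mul (hF : SH F) (hH : SH H) : SH (F * H) :=
  ⟨hF.smooth.mul hH.smooth, fun c z hc => by
    simp only [Pi.mul_apply, hF.hom c z hc, hH.hom c z hc]⟩

theorem SH.comp (hF : SH F) {ψ : ℝ → ℝ} {U : Set ℝ} (hU : IsOpen U) (hψ : ContDiffOn ℝ ∞ ψ U)
    (h : ∀ z ≠ 0, F z ∈ U) : SH (fun z => ψ (F z)) :=
  ⟨hψ.comp hF.smooth fun z hz => h z hz, fun c z hc => by simp only [hF.hom c z hc]⟩

theorem SH.memL (hF : SH F) : SH (LH F) := by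
  refine ⟨?_, fun c z hc => ?_⟩
  · have h1 : ContDiffOn ℝ ∞ (fun z : E m => rr z / m) {0}ᶜ :=
      (contDiff_rr.div_const _).contDiffOn
    have h2 : ContDiffOn ℝ ∞ (fun z : E m => ∑ a, (lev F z a a).re) {0}ᶜ :=
      ContDiffOn.sum fun a _ => Complex.reCLM.contDiff.comp_contDiffOn
        (Pool.Agent.helper63.NU.contDiffOn_lev isOpen_cp hF.smooth a a)
    exact h1.mul h2
  · by_cases hz : z = 0
    · rw [hz, smul_zero]
    · unfold LH
      rw [rr_smul]
      have h : ∀ a, (lev F z a a).re = ‖c‖ ^ 2 * (lev F (c • z) a a).re := by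
        intro a
        rw [lev_smul hF hc hz a a]
        have e : c * lev F (c • z) a a * (starRingEnd ℂ) c
            = ((‖c‖ ^ 2 : ℝ) : ℂ) * lev F (c • z) a a := by
          rw [← Complex.normSq_eq_norm_sq, Complex.normSq_eq_conj_mul_self]
          ring
        rw [e, Complex.re_ofReal_mul]
      simp only [h]
      rw [← Finset.mul_sum]
      ring

theorem SH.memG (hF : SH F) (hH : SH H) : SH (GH F H) := by
  refine ⟨?_, fun c z hc => ?_⟩
  · have h1 : ContDiffOn ℝ ∞ (fun z : E m => rr z / m) {0}ᶜ :=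
      (contDiff_rr.div_const _).contDiffOn
    have h2 : ContDiffOn ℝ ∞ (fun z : E m => ∑ a, dz a (cx F) z * db a (cx H) z) {0}ᶜ :=
      ContDiffOn.sum fun a _ =>
        (Pool.Agent.helper63.NU.contDiffOn_dz isOpen_cp (contDiffOn_cx hF) a).mul
          (Pool.Agent.helper63.NU.contDiffOn_db isOpen_cp (contDiffOn_cx hH) a)
    exact h1.mul (Complex.reCLM.contDiff.comp_contDiffOn h2)
  · by_cases hz : z = 0
    · rw [hz, smul_zero]
    · unfold GH
      rw [rr_smul]
      have h : ∀ a, dz a (cx F) z * db a (cx H) z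
          = ((‖c‖ ^ 2 : ℝ) : ℂ) * (dz a (cx F) (c • z) * db a (cx H) (c • z)) := by
        intro a
        rw [dz_smul hF hc hz a, db_smul hH hc hz a, ← Complex.normSq_eq_norm_sq,
          Complex.normSq_eq_conj_mul_self]
        ring
      simp only [h]
      rw [← Finset.mul_sum, Complex.re_ofReal_mul]
      ring

theorem LH_congr (h : ∀ z ≠ 0, F z = H z) (hz : z ≠ 0) : LH F z = LH H z := by
  unfold LH
  rw [Pool.Agent.helper63.NU.lev_congr (ψ := F) (ψ' := H) ((ev_ne hz).mono fun w hw => h w hw)]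

theorem GH_congr {F' H' : E m → ℝ} (h : ∀ z ≠ 0, F z = F' z) (h' : ∀ z ≠ 0, H z = H' z)
    (hz : z ≠ 0) : GH F H z = GH F' H' z := by
  unfold GH
  have h1 : ∀ a, dz a (cx F) z = dz a (cx F') z := fun a =>
    Pool.Agent.helper63.NU.dz_congr ((ev_ne hz).mono fun w hw => by simp only [cx, h w hw]) a
  have h2 : ∀ a, db a (cx H) z = db a (cx H') z := fun a =>
    Pool.Agent.helper63.NU.db_congr ((ev_ne hz).mono fun w hw => by simp only [cx, h' w hw]) a
  simp only [h1, h2]

theorem LH_const (c : ℝ) (z : E m) : LH (fun _ => c) z = 0 := by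
  unfold LH
  have h : ∀ a, lev (fun _ : E m => c) z a a = 0 := by
    intro a
    show dz a (db a (fun _ => ((c : ℝ) : ℂ))) z = 0
    have e : db a (fun _ : E m => ((c : ℝ) : ℂ)) = fun _ => 0 := by
      funext y
      exact Pool.Agent.helper63.NU.db_const _ _ _
    rw [e]
    exact Pool.Agent.helper63.NU.dz_const _ _ _
  simp [h]

theorem LH_add (hF : SH F) (hH : SH H) (hz : z ≠ 0) : LH (F + H) z = LH F z + LH H z := by
  unfold LH
  have h : lev (F + H) z = lev F z + lev H z :=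
    Pool.Agent.helper63.NU.lev_add (contDiffAt2 hF hz) (contDiffAt2 hH hz)
  rw [h, ← mul_add, ← Finset.sum_add_distrib]
  simp

theorem LH_mul (hF : SH F) (hH : SH H) (hz : z ≠ 0) :
    LH (F * H) z = F z * LH H z + H z * LH F z + 2 * GH F H z := by
  have h : ∀ a, (lev (F * H) z a a).re = F z * (lev H z a a).re + H z * (lev F z a a).re
      + 2 * (dz a (cx F) z * db a (cx H) z).re := by
    intro a
    have e1 : lev (F * H) z a a = dz a (fun w => db a (cx F) w * cx H w + cx F w * db a (cx H) w)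
        z := by
      show dz a (db a (cx (F * H))) z = _
      refine Pool.Agent.helper63.NU.dz_congr ?_ a
      filter_upwards [ev_ne hz] with w hw
      have e2 : cx (F * H) = fun w => cx F w * cx H w := by
        funext w; simp [cx]
      rw [e2]
      exact Pool.Agent.helper63.NU.db_mul (diffAt_cx hF hw) (diffAt_cx hH hw) a
    have e6 : dz a (fun w => db a (cx F) w * cx H w + cx F w * db a (cx H) w) z
        = dz a (fun w => db a (cx F) w * cx H w) z + dz a (fun w => cx F w * db a (cx H) w) z :=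
      Pool.Agent.helper63.NU.dz_add ((diffAt_db hF hz a).mul (diffAt_cx hH hz))
        ((diffAt_cx hF hz).mul (diffAt_db hH hz a)) a
    rw [e1, e6,
      Pool.Agent.helper63.NU.dz_mul (diffAt_db hF hz a) (diffAt_cx hH hz) a,
      Pool.Agent.helper63.NU.dz_mul (diffAt_cx hF hz) (diffAt_db hH hz a) a]
    have e3 : db a (cx F) z * dz a (cx H) z
        = (starRingEnd ℂ) (dz a (cx F) z * db a (cx H) z) := by
      rw [map_mul, ← db_real, ← dz_real]
    rw [e3]
    have e4 : lev H z a a = dz a (db a (cx H)) z := rfl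
    have e5 : lev F z a a = dz a (db a (cx F)) z := rfl
    rw [e4, e5]
    simp only [Complex.add_re, Complex.conj_re, cx, Complex.re_mul_ofReal, Complex.re_ofReal_mul]
    ring
  unfold LH GH
  simp only [h, Finset.sum_add_distrib, Complex.re_sum, ← Finset.mul_sum]
  ring

theorem GH_const (c : ℝ) (hF : SH F) (z : E m) : GH (fun _ => c) F z = 0 := by
  unfold GH
  have h : ∀ a, dz a (cx (fun _ : E m => c)) z = 0 := fun a =>
    Pool.Agent.helper63.NU.dz_const _ _ _
  simp [h]

/-- `db F = conj (dz F)` for real `F` -/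
theorem GH_symm (F H : E m → ℝ) (z : E m) : GH F H z = GH H F z := by
  unfold GH
  congr 1
  have h : (∑ a, dz a (cx H) z * db a (cx F) z)
      = (starRingEnd ℂ) (∑ a, dz a (cx F) z * db a (cx H) z) := by
    rw [map_sum]
    refine Finset.sum_congr rfl fun a _ => ?_
    rw [map_mul, ← db_real, ← dz_real]
    ring
  rw [h, Complex.conj_re]

theorem GH_add (hF : SH F) (hH : SH H) (hK : SH K) (hz : z ≠ 0) :
    GH (F + H) K z = GH F K z + GH H K z := by
  unfold GH
  have h : ∀ a, dz a (cx (F + H)) z = dz a (cx F) z + dz a (cx H) z := by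
    intro a
    have e : cx (F + H) = fun w => cx F w + cx H w := by funext w; simp [cx]
    rw [e]
    exact Pool.Agent.helper63.NU.dz_add (diffAt_cx hF hz) (diffAt_cx hH hz) a
  simp only [h, add_mul, Finset.sum_add_distrib, Complex.add_re, mul_add]

theorem GH_mul (hF : SH F) (hH : SH H) (hK : SH K) (hz : z ≠ 0) :
    GH (F * H) K z = F z * GH H K z + H z * GH F K z := by
  unfold GH
  have h : ∀ a, dz a (cx (F * H)) z * db a (cx K) z
      = ((F z : ℝ) : ℂ) * (dz a (cx H) z * db a (cx K) z)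
        + ((H z : ℝ) : ℂ) * (dz a (cx F) z * db a (cx K) z) := by
    intro a
    have e : cx (F * H) = fun w => cx F w * cx H w := by funext w; simp [cx]
    rw [e, Pool.Agent.helper63.NU.dz_mul (diffAt_cx hF hz) (diffAt_cx hH hz) a]
    ring
  simp only [h, Finset.sum_add_distrib, ← Finset.mul_sum, Complex.add_re, Complex.re_ofReal_mul]
  ring

theorem P8.GH_self (F : E m → ℝ) (z : E m) :
    GH F F z = rr z / m * ∑ a, ‖db a (cx F) z‖ ^ 2 := by
  unfold GH
  congr 1
  rw [Complex.re_sum]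
  refine Finset.sum_congr rfl fun a _ => ?_
  rw [dz_real, ← Complex.normSq_eq_conj_mul_self, Complex.ofReal_re, Complex.normSq_eq_norm_sq]

theorem GH_nonneg (F : E m → ℝ) (z : E m) : 0 ≤ GH F F z := by
  rw [P8.GH_self]
  have := rr_nonneg z
  positivity

theorem GH_comp (hF : SH F) (hH : SH H) {ψ : ℝ → ℝ} {U : Set ℝ} (hU : IsOpen U)
    (hψ : ContDiffOn ℝ ∞ ψ U) (h : ∀ z ≠ 0, F z ∈ U) (hz : z ≠ 0) :
    GH (fun z => ψ (F z)) H z = deriv ψ (F z) * GH F H z := by
  unfold GH
  have hd : DifferentiableAt ℝ ψ (F z) :=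
    (hψ.contDiffAt (hU.mem_nhds (h z hz))).differentiableAt (by simp)
  have h1 : ∀ a, dz a (cx fun z => ψ (F z)) z * db a (cx H) z
      = ((deriv ψ (F z) : ℝ) : ℂ) * (dz a (cx F) z * db a (cx H) z) := by
    intro a
    have e : dz a (cx fun z => ψ (F z)) z = ((deriv ψ (F z) : ℝ) : ℂ) * dz a (cx F) z :=
      Pool.Agent.helper63.NU.dz_real_comp hd (diffAt hF hz) a
    rw [e]
    ring
  simp only [h1, ← Finset.mul_sum, Complex.re_ofReal_mul]
  ring

theorem LH_comp (hF : SH F) {ψ : ℝ → ℝ} {U : Set ℝ} (hU : IsOpen U)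
    (hψ : ContDiffOn ℝ ∞ ψ U) (h : ∀ z ≠ 0, F z ∈ U) (hz : z ≠ 0) :
    LH (fun z => ψ (F z)) z = deriv ψ (F z) * LH F z + deriv (deriv ψ) (F z) * GH F F z := by
  have hd : ∀ w ≠ 0, DifferentiableAt ℝ ψ (F w) := fun w hw =>
    (hψ.contDiffAt (hU.mem_nhds (h w hw))).differentiableAt (by simp)
  have hψ' : ContDiffOn ℝ ∞ (deriv ψ) U := hψ.deriv_of_isOpen hU (by simp)
  have hd' : DifferentiableAt ℝ (deriv ψ) (F z) :=
    (hψ'.contDiffAt (hU.mem_nhds (h z hz))).differentiableAt (by simp)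
  have hlev : ∀ a, (lev (fun z => ψ (F z)) z a a).re = deriv ψ (F z) * (lev F z a a).re
      + deriv (deriv ψ) (F z) * (dz a (cx F) z * db a (cx F) z).re := by
    intro a
    have e1 : lev (fun z => ψ (F z)) z a a
        = dz a (fun w => ((deriv ψ (F w) : ℝ) : ℂ) * db a (cx F) w) z := by
      show dz a (db a (fun z => ((ψ (F z) : ℝ) : ℂ))) z = _
      refine Pool.Agent.helper63.NU.dz_congr ?_ a
      filter_upwards [ev_ne hz] with w hw
      exact Pool.Agent.helper63.NU.db_real_comp (hd w hw) (diffAt hF hw) a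
    have e2 : DifferentiableAt ℝ (fun w => ((deriv ψ (F w) : ℝ) : ℂ)) z :=
      Complex.ofRealCLM.differentiableAt.comp z (hd'.comp z (diffAt hF hz))
    rw [e1, Pool.Agent.helper63.NU.dz_mul e2 (diffAt_db hF hz a) a,
      Pool.Agent.helper63.NU.dz_real_comp hd' (diffAt hF hz) a]
    have e5 : lev F z a a = dz a (db a (cx F)) z := rfl
    rw [e5, Complex.add_re, mul_assoc, Complex.re_ofReal_mul, Complex.re_ofReal_mul]
    ring
  unfold LH GH
  simp only [hlev, Finset.sum_add_distrib, Complex.re_sum, ← Finset.mul_sum]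
  ring

theorem P8.second_nonneg {f : ℝ → ℝ} {x : ℝ} (hf : ContinuousAt f x) (h : IsLocalMin f x) :
    0 ≤ deriv (deriv f) x := by
  by_contra hneg
  push Not at hneg
  have hd : deriv f x = 0 := h.deriv_eq_zero
  have hmax : IsLocalMax f x := isLocalMax_of_deriv_deriv_neg hneg hd hf
  have hc : f =ᶠ[𝓝 x] fun _ => f x := by
    filter_upwards [h, hmax] with y h1 h2
    exact le_antisymm h2 h1
  have hc2 : deriv f =ᶠ[𝓝 x] fun _ => 0 := by
    filter_upwards [hc.eventuallyEq_nhds] with y hy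
    rw [hy.deriv_eq, deriv_const]
  rw [hc2.deriv_eq, deriv_const] at hneg
  exact lt_irrefl _ hneg

theorem P8.line_second {F : E m → ℝ} {z : E m} (hF : ContDiffAt ℝ 2 F z) (v : E m) :
    deriv (deriv (fun s : ℝ => F (z + s • v))) 0 = fderiv ℝ (fun w => fderiv ℝ F w v) z v := by
  have hline : ∀ s : ℝ, HasDerivAt (fun s : ℝ => z + s • v) v s := by
    intro s
    simpa using ((hasDerivAt_id s).smul_const v).const_add z
  have hcont : ContinuousAt (fun s : ℝ => z + s • v) 0 := (hline 0).continuousAt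
  have hev : ∀ᶠ w in 𝓝 z, DifferentiableAt ℝ F w := by
    filter_upwards [hF.eventually (by simp)] with w hw
    exact hw.differentiableAt (by simp)
  have hz0 : z + (0 : ℝ) • v = z := by simp
  have hev2 : ∀ᶠ s : ℝ in 𝓝 0, DifferentiableAt ℝ F (z + s • v) := by
    have ht : Tendsto (fun s : ℝ => z + s • v) (𝓝 0) (𝓝 z) := by
      have := hcont.tendsto
      simpa using this
    exact ht.eventually hev
  have h1 : deriv (fun s : ℝ => F (z + s • v)) =ᶠ[𝓝 0] fun s => fderiv ℝ F (z + s • v) v := by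
    filter_upwards [hev2] with s hs
    exact (hs.hasFDerivAt.comp_hasDerivAt s (hline s)).deriv
  rw [h1.deriv_eq]
  have hd : DifferentiableAt ℝ (fun w => fderiv ℝ F w v) z := by
    have h2 : DifferentiableAt ℝ (fderiv ℝ F) z :=
      (hF.fderiv_right (m := 1) (by norm_num)).differentiableAt (by simp)
    exact h2.clm_apply (differentiableAt_const v)
  have hd' : HasFDerivAt (fun w => fderiv ℝ F w v) (fderiv ℝ (fun w => fderiv ℝ F w v) z)
      (z + (0 : ℝ) • v) := by rw [hz0]; exact hd.hasFDerivAt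
  exact (hd'.comp_hasDerivAt (0 : ℝ) (hline 0)).deriv

theorem P8.lev_re {F : E m → ℝ} {z : E m} (hF : ContDiffAt ℝ 2 F z) (a : Fin m) :
    (lev F z a a).re = (fderiv ℝ (fun w => fderiv ℝ F w (Pi.single a 1)) z (Pi.single a 1)
      + fderiv ℝ (fun w => fderiv ℝ F w (Pi.single a Complex.I)) z (Pi.single a Complex.I)) / 4 := by
  have hev : ∀ᶠ w in 𝓝 z, DifferentiableAt ℝ F w := by
    filter_upwards [hF.eventually (by simp)] with w hw
    exact hw.differentiableAt (by simp)
  have h2 : DifferentiableAt ℝ (fderiv ℝ F) z :=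
    (hF.fderiv_right (m := 1) (by norm_num)).differentiableAt (by simp)
  have hg : ∀ v : E m, DifferentiableAt ℝ (fun w => fderiv ℝ F w v) z := fun v =>
    h2.clm_apply (differentiableAt_const v)
  have hgc : ∀ v : E m, HasFDerivAt (fun w => ((fderiv ℝ F w v : ℝ) : ℂ))
      (Complex.ofRealCLM.comp (fderiv ℝ (fun w => fderiv ℝ F w v) z)) z := fun v =>
    Complex.ofRealCLM.hasFDerivAt.comp z (hg v).hasFDerivAt
  have hcx : ∀ᶠ w in 𝓝 z, ∀ v : E m, fderiv ℝ (cx F) w v = ((fderiv ℝ F w v : ℝ) : ℂ) := by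
    filter_upwards [hev] with w hw v
    have h3 : HasFDerivAt (cx F) (Complex.ofRealCLM.comp (fderiv ℝ F w)) w :=
      Complex.ofRealCLM.hasFDerivAt.comp w hw.hasFDerivAt
    rw [h3.fderiv]
    rfl
  have hdb : db a (cx F) =ᶠ[𝓝 z] fun w => (((fderiv ℝ F w (Pi.single a 1) : ℝ) : ℂ)
      + Complex.I * ((fderiv ℝ F w (Pi.single a Complex.I) : ℝ) : ℂ)) / 2 := by
    filter_upwards [hcx] with w hw
    show (fderiv ℝ (cx F) w (Pi.single a 1)
      + Complex.I * fderiv ℝ (cx F) w (Pi.single a Complex.I)) / 2 = _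
    rw [hw, hw]
  have hdb' : HasFDerivAt (fun w => (((fderiv ℝ F w (Pi.single a 1) : ℝ) : ℂ)
      + Complex.I * ((fderiv ℝ F w (Pi.single a Complex.I) : ℝ) : ℂ)) * (1 / 2 : ℂ))
      ((1 / 2 : ℂ) • (Complex.ofRealCLM.comp
        (fderiv ℝ (fun w => fderiv ℝ F w (Pi.single a 1)) z)
      + Complex.I • (Complex.ofRealCLM.comp
        (fderiv ℝ (fun w => fderiv ℝ F w (Pi.single a Complex.I)) z)))) z :=
    ((hgc _).add ((hgc _).const_mul Complex.I)).mul_const _
  have h5 : ∀ v : E m, fderiv ℝ (db a (cx F)) z v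
      = (1 / 2 : ℂ) * (((fderiv ℝ (fun w => fderiv ℝ F w (Pi.single a 1)) z v : ℝ) : ℂ)
        + Complex.I * ((fderiv ℝ (fun w => fderiv ℝ F w (Pi.single a Complex.I)) z v : ℝ) : ℂ)) := by
    intro v
    rw [hdb.fderiv_eq]
    have e : (fun w => (((fderiv ℝ F w (Pi.single a 1) : ℝ) : ℂ)
      + Complex.I * ((fderiv ℝ F w (Pi.single a Complex.I) : ℝ) : ℂ)) / 2)
      = fun w => (((fderiv ℝ F w (Pi.single a 1) : ℝ) : ℂ)
      + Complex.I * ((fderiv ℝ F w (Pi.single a Complex.I) : ℝ) : ℂ)) * (1 / 2 : ℂ) := by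
      funext w; ring
    rw [e, hdb'.fderiv]
    rfl
  show ((fderiv ℝ (db a (cx F)) z (Pi.single a 1)
    - Complex.I * fderiv ℝ (db a (cx F)) z (Pi.single a Complex.I)) / 2).re = _
  rw [h5, h5]
  have e : ∀ p q r s : ℝ, (((1 / 2 : ℂ) * ((p : ℂ) + Complex.I * (q : ℂ))
      - Complex.I * ((1 / 2 : ℂ) * ((r : ℂ) + Complex.I * (s : ℂ)))) / 2).re = (p + s) / 4 := by
    intro p q r s
    have : (((1 / 2 : ℂ) * ((p : ℂ) + Complex.I * (q : ℂ))
      - Complex.I * ((1 / 2 : ℂ) * ((r : ℂ) + Complex.I * (s : ℂ)))) / 2)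
      = (((p + s) / 4 : ℝ) : ℂ) + (((q - r) / 4 : ℝ) : ℂ) * Complex.I := by
      push_cast
      linear_combination (-(s : ℂ) / 4) * Complex.I_sq
    rw [this, Complex.add_re, Complex.ofReal_re, Complex.re_ofReal_mul, Complex.I_re, mul_zero,
      add_zero]
  exact e _ _ _ _

/-- at a minimum point the Laplacian is nonnegative: `∂_a∂̄_a F` is a quarter of the Laplacian of
`t ↦ F(z + t e_a)`, `t ∈ ℂ` -/
theorem LH_min (hF : SH F) (hz : z ≠ 0) (h : ∀ w ≠ 0, F z ≤ F w) : 0 ≤ LH F z := by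
  have key : ∀ v : E m, 0 ≤ fderiv ℝ (fun w => fderiv ℝ F w v) z v := by
    intro v
    rw [← P8.line_second (contDiffAt2 hF hz) v]
    have hcont : ContinuousAt (fun s : ℝ => z + s • v) 0 := by fun_prop
    have hz0 : z + (0 : ℝ) • v = z := by simp
    refine P8.second_nonneg ?_ ?_
    · have h1 : ContinuousAt F (z + (0 : ℝ) • v) := by
        rw [hz0]; exact (diffAt hF hz).continuousAt
      exact ContinuousAt.comp (f := fun s : ℝ => z + s • v) h1 hcont
    · have h1 : ∀ᶠ s : ℝ in 𝓝 0, z + s • v ≠ 0 := by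
        have ht : Tendsto (fun s : ℝ => z + s • v) (𝓝 0) (𝓝 z) := by
          have := hcont.tendsto
          simpa using this
        exact ht.eventually (ev_ne hz)
      filter_upwards [h1] with s hs
      rw [hz0]
      exact h _ hs
  unfold LH
  refine mul_nonneg (div_nonneg (rr_nonneg z) (Nat.cast_nonneg m))
    (Finset.sum_nonneg fun a _ => ?_)
  rw [P8.lev_re (contDiffAt2 hF hz) a]
  have h1 := key (Pi.single a 1)
  have h2 := key (Pi.single a Complex.I)
  linarith

/-- `∂F = 0` on the connected set `ℂ^m ∖ 0` -/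
theorem GH_conn (hm : 2 ≤ m) (hF : SH F) (h : ∀ z ≠ 0, GH F F z = 0) {w : E m} (hz : z ≠ 0)
    (hw : w ≠ 0) : F z = F w := by
  have hdb : ∀ y ≠ 0, ∀ a, db a (cx F) y = 0 := by
    intro y hy a
    have h1 := h y hy
    rw [P8.GH_self] at h1
    have hr : rr y / m ≠ 0 := by
      have := rr_pos hy
      have hm' : (0 : ℝ) < m := by exact_mod_cast (by omega : 0 < m)
      positivity
    have h2 := (mul_eq_zero.1 h1).resolve_left hr
    have h3 := (Finset.sum_eq_zero_iff_of_nonneg fun a _ => by positivity).1 h2 a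
      (Finset.mem_univ a)
    exact norm_eq_zero.1 (pow_eq_zero_iff (by norm_num) |>.1 h3)
  have hfd : ∀ y ≠ 0, fderiv ℝ (cx F) y = 0 := by
    intro y hy
    ext v
    rw [Pool.Agent.helper63.NU.fderiv_eq_sum]
    simp only [hdb y hy, dz_real, map_zero, zero_mul, add_zero, Finset.sum_const_zero]
    rfl
  have hpc : IsPreconnected ({0}ᶜ : Set (E m)) := by
    refine (isConnected_compl_singleton_of_one_lt_rank ?_ (0 : E m)).isPreconnected
    rw [← Module.finrank_eq_rank, ← Nat.cast_one, Nat.cast_lt]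
    have : Module.finrank ℝ (E m) = m * 2 := by
      rw [Module.finrank_pi_fintype]
      simp
    omega
  have h4 : cx F z = cx F w := P8.isOpen_cp.is_const_of_fderiv_eq_zero hpc
    (fun y hy => (diffAt_cx hF hy).differentiableWithinAt) (fun y hy => hfd y hy) hz hw
  exact Complex.ofReal_inj.1 h4

end Pool.Agent.helper31.NU
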