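import Pool.Agent.helper63.NU.Defs3
import Pool.Agent.helper59.NU.F1
import Pool.Agent.helper12.NU.Comb
import Pool.Agent.helper74.NU.Q2
import Pool.Agent.helper96.NU.Q6b

set_option autoImplicit false

/-! Module Q7: arbitrary jets of order almost `(n+1)K` at a generic point. -/

open MeasureTheory Filter Topology Set
open scoped ContDiff Manifold Matrix ENNReal ComplexOrder

noncomputable section

namespace Pool.Agent.helper63.NU

namespace Q7

/-- if a multi-index is missing then so are all larger ones -/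
theorem card_miss {n N : ℕ} {α : Fin N → Fin n → ℕ} (hinj : Function.Injective α)
    (hid : ∀ i β, β ≤ α i → ∃ j, α j = β) {α0 : Fin n → ℕ} (h0 : ¬ ∃ j, α j = α0) (m : ℕ) :
    (Finset.univ.filter fun i => ∑ a, α i a < m).card
      + ((T n m).filter fun β => ∀ a, α0 a ≤ β a).card ≤ (T n m).card := by
  classical
  rw [← Finset.card_image_of_injective _ hinj, ← Finset.card_union_of_disjoint]
  · refine Finset.card_le_card fun β hβ => ?_
    rw [Finset.mem_union] at hβ
    rcases hβ with h | h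
    · rw [Finset.mem_image] at h
      obtain ⟨i, hi, rfl⟩ := h
      rw [mem_T]
      exact (Finset.mem_filter.1 hi).2
    · exact (Finset.mem_filter.1 h).1
  · rw [Finset.disjoint_left]
    intro β h1 h2
    rw [Finset.mem_image] at h1
    obtain ⟨i, -, rfl⟩ := h1
    exact h0 (hid i α0 fun a => (Finset.mem_filter.1 h2).2 a)

theorem D_sub {n : ℕ} {U : Set (E n)} (hU : IsOpen U) {f g : E n → ℂ}
    (hf : DifferentiableOn ℂ f U) (hg : DifferentiableOn ℂ g U) (β : F1.Ex n) {p : E n}
    (hp : p ∈ U) : F1.D β (fun y => f y - g y) p = F1.D β f p - F1.D β g p := by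
  have h := F1.D_sum hU (ι := Bool) (b := fun t => if t then f else g)
    (by intro t; cases t <;> simp [hf, hg]) (fun t => if t then 1 else -1) β hp
  simp only [Fintype.sum_bool, if_true, Bool.false_eq_true, if_false] at h
  have e : (fun y => f y - g y) = fun y => 1 * f y + -1 * g y := by funext y; ring
  rw [e, h]
  ring

end Q7

open Q7

variable {n : ℕ} {M : Type*} [TopologicalSpace M] [ChartedSpace (E n) M]
  [IsManifold 𝓘(ℂ, E n) ω M]
variable [CompactSpace M] [T2Space M] [ConnectedSpace M]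
variable [MeasurableSpace M] [BorelSpace M] {μ : Measure M} {φ : Fam n M ℝ}

theorem Q7.jets_H0 (hφ : IsPos 1 φ) (hμ : IsDens μ φ) {K : ℕ} (hK : 1 ≤ K) {e : Ch n M}
    (he : e ∈ atlas (E n) M) (hne : e.target.Nonempty) :
    ∃ N : ℕ, N = Module.finrank ℂ (H0 n M K) ∧ ∃ p ∈ e.target, ∃ (f : Fin N → Fam n M ℂ)
      (α : Fin N → Fin n → ℕ),
      (∀ i, f i ∈ H0 n M K) ∧ LinearIndependent ℂ f ∧
      Function.Injective α ∧ (∀ i β, β ≤ α i → ∃ j, α j = β) ∧
      (∀ i, VanO (f i e) p (∑ a, α i a)) ∧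
      ∀ (c : Fin N → ℂ) (m : ℕ), VanO (fun y => ∑ i, c i * f i e y) p m → ∀ i, ∑ a, α i a < m → c i = 0 := by
  classical
  have := H0_finiteDimensional hφ hμ hK
  set N := Module.finrank ℂ (H0 n M K) with hN
  set bs := Module.finBasis ℂ (H0 n M K) with hbs
  set b : Fin N → E n → ℂ := fun j => (bs j : Fam n M ℂ) e with hb
  have hbd : ∀ j, DifferentiableOn ℂ (b j) e.target := fun j => (bs j).2.1.hol e he
  have hind : ∀ V ⊆ e.target, IsOpen V → V.Nonempty → ∀ c : Fin N → ℂ,
      (∀ y ∈ V, ∑ j, c j * b j y = 0) → c = 0 := by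
    intro V hV hVo ⟨q, hq⟩ c hc
    have h1 : ((∑ j, c j • bs j : H0 n M K) : Fam n M ℂ) = 0 := by
      refine H0_eq_zero (∑ j, c j • bs j : H0 n M K).2 he (hV hq) ?_
      filter_upwards [hVo.mem_nhds hq] with y hy
      rw [← hc y hy]
      simp [hb, Finset.sum_apply]
    have h2 : (∑ j, c j • bs j : H0 n M K) = 0 := Subtype.ext h1
    have h3 := Fintype.linearIndependent_iff.1 bs.linearIndependent c h2
    exact funext h3
  obtain ⟨p, hp, C, -, α, hdet, hinj, hideal, -, -, hvan, hlast⟩ :=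
    jets2 e.open_target hne b hbd hind 0
  set f : Fin N → Fam n M ℂ := fun i => ∑ j, C i j • (bs j : Fam n M ℂ) with hf
  have hfe : ∀ i y, f i e y = ∑ j, C i j * b j y := by
    intro i y
    simp [hf, hb, Finset.sum_apply]
  refine ⟨N, rfl, p, hp, f, α, ?_, ?_, hinj, hideal, ?_, ?_⟩
  · intro i
    exact Submodule.sum_mem _ fun j _ => Submodule.smul_mem _ _ (bs j).2
  · rw [Fintype.linearIndependent_iff]
    intro g hg
    have h1 : (∑ j, (∑ i, g i * C i j) • bs j : H0 n M K) = 0 := by
      apply Subtype.ext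
      refine Eq.trans ?_ hg
      simp only [Submodule.coe_sum, Submodule.coe_smul, hf, Finset.smul_sum, Finset.sum_smul,
        smul_smul]
      rw [Finset.sum_comm]
    have h2 := Fintype.linearIndependent_iff.1 bs.linearIndependent _ h1
    have h3 : Matrix.vecMul g C = 0 := by
      funext j
      rw [Matrix.vecMul, dotProduct]
      exact h2 j
    exact congrFun (Matrix.eq_zero_of_vecMul_eq_zero hdet.ne_zero h3)
  · intro i
    obtain ⟨K', hK'⟩ := hvan i
    exact ⟨K', hK'.mono fun y hy => by rw [hfe]; exact hy⟩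
  · rintro c m ⟨K', hK'⟩
    exact hlast c m ⟨K', hK'.mono fun y hy => by simpa only [hfe] using hy⟩

/-- sections of `-KK_M` have arbitrary jets of order almost `(n+1)K` at some point -/
theorem gen_surj [IsProbabilityMeasure μ] (hn : 0 < n) (hφ : IsPos 1 φ) (hμ : IsDens μ φ)
    (hdl : ∀ x, dl φ x = (Real.pi * (n + 1)) ^ n / n.factorial)
    (hdim : ∀ η > 0, ∃ k₀ : ℕ, ∀ k ≥ k₀, (Module.finrank ℂ (H0 n M k) : ℝ)
      ≤ ((n + 1) ^ n / n.factorial + η) * (k : ℝ) ^ n)
    {δ : ℝ} (hδ : 0 < δ) : ∃ K₀ : ℕ, ∀ K ≥ K₀, ∃ e ∈ atlas (E n) M, ∃ p ∈ e.target,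
      ∀ m : ℕ, (m : ℝ) ≤ (n + 1 - δ) * K → ∀ P : E n → ℂ, HolAt P p →
        ∃ s ∈ H0 n M K, VanO (fun y => s e y - P y) p (m + 1) := by
  classical
  set δ' : ℝ := δ ^ (n + 1) / (2 * (n + 1).factorial) with hδ'
  have hδ'0 : 0 < δ' := by positivity
  obtain ⟨K₁, hK₁⟩ := excess hn hφ hμ hdl hdim hδ'0
  refine ⟨max K₁ 1, fun K hK => ?_⟩
  have hKK : K₁ ≤ K := (le_max_left _ _).trans hK
  have hK1 : 1 ≤ K := (le_max_right _ _).trans hK
  obtain ⟨x⟩ := nonempty_of_isProbabilityMeasure μ
  set e := chartAt (E n) x with he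
  have hea : e ∈ atlas (E n) M := chart_mem_atlas _ x
  have hne : e.target.Nonempty := ⟨e x, e.map_source (mem_chart_source _ x)⟩
  obtain ⟨N, hN, p, hp, f, α, hfH, hfl, hinj, hideal, hvan, hlast⟩ :=
    Q7.jets_H0 hφ hμ hK1 hea hne
  have := H0_finiteDimensional hφ hμ hK1
  refine ⟨e, hea, p, hp, ?_⟩
  -- the dimension of the spaces of sections of high order
  have hVV : ∀ m, (Finset.univ.filter fun i => m ≤ ∑ a, α i a).card
      ≤ Module.finrank ℂ (VV K e p m) := by
    intro m
    have hle : VV K e p m ≤ H0 n M K := fun s hs => hs.1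
    have : FiniteDimensional ℂ (VV K e p m) := Submodule.finiteDimensional_of_le hle
    have hmem : ∀ i : {i // i ∈ Finset.univ.filter fun i => m ≤ ∑ a, α i a},
        f i ∈ VV K e p m := by
      intro i
      refine ⟨hfH i, ?_⟩
      obtain ⟨K', hK'⟩ := hvan i
      have hi : m ≤ ∑ a, α i a := (Finset.mem_filter.1 i.2).2
      refine ⟨max K' 0, ?_⟩
      have hnear : ∀ᶠ y in 𝓝 p, ‖y - p‖ ≤ 1 := by
        filter_upwards [Metric.ball_mem_nhds p one_pos] with y hy
        rw [← dist_eq_norm]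
        exact (Metric.mem_ball.1 hy).le
      filter_upwards [hK', hnear] with y hy hy1
      calc ‖f i e y‖ ≤ K' * ‖y - p‖ ^ (∑ a, α i a) := hy
        _ ≤ max K' 0 * ‖y - p‖ ^ (∑ a, α i a) := by gcongr; exact le_max_left _ _
        _ ≤ max K' 0 * ‖y - p‖ ^ m := by
            gcongr ?_ * ?_
            exact pow_le_pow_of_le_one (norm_nonneg _) hy1 hi
    have hli : LinearIndependent ℂ
        (fun i : {i // i ∈ Finset.univ.filter fun i => m ≤ ∑ a, α i a} =>
          (⟨f i, hmem i⟩ : VV K e p m)) := by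
      refine LinearIndependent.of_comp (VV K e p m).subtype ?_
      exact hfl.comp (fun i : {i // i ∈ Finset.univ.filter fun i => m ≤ ∑ a, α i a} => (i : Fin N))
        Subtype.val_injective
    have := hli.fintype_card_le_finrank
    rwa [Fintype.card_coe] at this
  have hsplit : ∀ m, (Finset.univ.filter fun i => ∑ a, α i a < m).card
      + (Finset.univ.filter fun i => m ≤ ∑ a, α i a).card = N := by
    intro m
    have h := Finset.card_filter_add_card_filter_not (s := (Finset.univ : Finset (Fin N)))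
      (fun i => ∑ a, α i a < m)
    rw [Finset.card_univ, Fintype.card_fin] at h
    refine Eq.trans ?_ h
    congr 2
    ext i
    simp
  -- all multi-indices of degree at most `(n+1-δ) K` occur
  have hall : ∀ α0 : Fin n → ℕ, ((∑ a, α0 a : ℕ) : ℝ) ≤ (n + 1 - δ) * K → ∃ j, α j = α0 := by
    intro α0 hα0
    by_contra h0
    set i0 := ∑ a, α0 a with hi0
    have h1 := (hK₁ K hKK e hea p hp).2
    rw [← hN] at h1
    have hterm : ∀ m ∈ Finset.Icc 1 ((n + 1) * K),
        (if i0 + 1 ≤ m then ((m - 1 - i0 + n).choose n : ℝ) else 0)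
        ≤ ((m - 1 + n).choose n : ℝ) + Module.finrank ℂ (VV K e p m) - N := by
      intro m hm
      rw [Finset.mem_Icc] at hm
      have h2 := card_miss hinj hideal h0 m
      have h3 : (T n m).card = (m - 1 + n).choose n := by
        have := card_T n (m - 1)
        rwa [show m - 1 + 1 = m by omega] at this
      have h4 := hVV m
      have h5 := hsplit m
      have h6 : (if i0 + 1 ≤ m then (m - 1 - i0 + n).choose n else 0)
          ≤ ((T n m).filter fun β => ∀ a, α0 a ≤ β a).card := by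
        split_ifs with h7
        · have := card_T_ge n α0 (m := m - 1 - i0)
          rw [show ∑ a, α0 a + (m - 1 - i0) + 1 = m by omega] at this
          rw [this]
        · exact Nat.zero_le _
      have h8 : (if i0 + 1 ≤ m then (m - 1 - i0 + n).choose n else 0) + N
          ≤ (m - 1 + n).choose n + Module.finrank ℂ (VV K e p m) := by omega
      have h9 : (((if i0 + 1 ≤ m then (m - 1 - i0 + n).choose n else 0 : ℕ) : ℝ)) + N
          ≤ ((m - 1 + n).choose n : ℝ) + Module.finrank ℂ (VV K e p m) := by exact_mod_cast h8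
      have h10 : ((if i0 + 1 ≤ m then (m - 1 - i0 + n).choose n else 0 : ℕ) : ℝ)
          = if i0 + 1 ≤ m then ((m - 1 - i0 + n).choose n : ℝ) else 0 := by
        split_ifs <;> simp
      rw [← h10]
      linarith
    have h2 := (Finset.sum_le_sum hterm).trans h1
    rw [← Finset.sum_filter] at h2
    have h3 : (Finset.Icc 1 ((n + 1) * K)).filter (fun m => i0 + 1 ≤ m)
        = Finset.Icc (i0 + 1) ((n + 1) * K) := by
      ext m
      rw [Finset.mem_filter, Finset.mem_Icc, Finset.mem_Icc]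
      omega
    rw [h3] at h2
    have h4 := Q7.sum_choose n i0 ((n + 1) * K)
    have hKr : (1 : ℝ) ≤ K := by exact_mod_cast hK1
    have hi0le : i0 ≤ (n + 1) * K := by
      have : (i0 : ℝ) ≤ ((n + 1) * K : ℕ) := by push_cast; nlinarith
      exact_mod_cast this
    have h5 : δ * K ≤ (((n + 1) * K - i0 : ℕ) : ℝ) := by
      rw [Nat.cast_sub hi0le]
      push_cast
      linarith
    have h6 : (δ * K) ^ (n + 1) ≤ (((n + 1) * K - i0 : ℕ) : ℝ) ^ (n + 1) := by gcongr
    have h7 : (δ * K) ^ (n + 1) / (n + 1).factorial ≤ δ' * (K : ℝ) ^ (n + 1) := by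
      refine le_trans ?_ (h4.le.trans h2)
      gcongr
    rw [hδ', mul_pow] at h7
    have hf0 : (0 : ℝ) < (n + 1).factorial := by positivity
    have h8 : 0 < δ ^ (n + 1) * (K : ℝ) ^ (n + 1) / (n + 1).factorial := by positivity
    have h9 : δ ^ (n + 1) / (2 * (n + 1).factorial) * (K : ℝ) ^ (n + 1)
        = δ ^ (n + 1) * (K : ℝ) ^ (n + 1) / (n + 1).factorial / 2 := by
      field_simp
    rw [h9] at h7
    linarith
  -- surjectivity of the jets map
  intro m hm P hP
  have hJ : ∀ γ : {γ // γ ∈ T n (m + 1)}, ∃ i, α i = γ := by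
    intro γ
    refine hall γ (le_trans ?_ hm)
    have := mem_T.1 γ.2
    exact_mod_cast Nat.lt_succ_iff.1 this
  choose ix hix using hJ
  have hixinj : Function.Injective ix := by
    intro γ γ' h
    apply Subtype.ext
    rw [← hix γ, ← hix γ', h]
  have hfd : ∀ i, DifferentiableOn ℂ (f i e) e.target := fun i => (hfH i).1.hol e hea
  set A : Matrix {γ // γ ∈ T n (m + 1)} {γ // γ ∈ T n (m + 1)} ℂ :=
    Matrix.of fun β γ => F1.D (β : Fin n → ℕ) (f (ix γ) e) p with hA
  -- the section with coefficients `c`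
  have hse : ∀ (c : {γ // γ ∈ T n (m + 1)} → ℂ) (y : E n),
      (∑ γ, c γ • f (ix γ) : Fam n M ℂ) e y = ∑ γ, c γ * f (ix γ) e y := by
    intro c y
    simp [Finset.sum_apply]
  have hDs : ∀ (c : {γ // γ ∈ T n (m + 1)} → ℂ) (β : {γ // γ ∈ T n (m + 1)}),
      F1.D (β : Fin n → ℕ) (fun y => ∑ γ, c γ * f (ix γ) e y) p = A.mulVec c β := by
    intro c β
    rw [F1.D_sum e.open_target (b := fun γ : {γ // γ ∈ T n (m + 1)} => f (ix γ) e)
      (fun γ => hfd _) c β hp]
    simp only [Matrix.mulVec, dotProduct, hA, Matrix.of_apply]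
    exact Finset.sum_congr rfl fun γ _ => mul_comm _ _
  have hsd : ∀ (c : {γ // γ ∈ T n (m + 1)} → ℂ),
      DifferentiableOn ℂ (fun y => ∑ γ, c γ * f (ix γ) e y) e.target := fun c =>
    DifferentiableOn.fun_sum fun γ _ => (hfd _).const_mul (c γ)
  have hAinj : Function.Injective (Matrix.mulVecLin A) := by
    rw [injective_iff_map_eq_zero]
    intro c hc
    have h1 : VanO (fun y => ∑ γ, c γ * f (ix γ) e y) p (m + 1) := by
      refine F1.vanish e.open_target (hsd c) hp (m + 1) fun β hβ => ?_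
      have h2 := hDs c ⟨β, mem_T.2 hβ⟩
      simp only at h2
      rw [h2]
      exact congrFun hc _
    set c' : Fin N → ℂ := fun i => ∑ γ, if ix γ = i then c γ else 0 with hc'
    have h3 : ∀ y, ∑ i, c' i * f i e y = ∑ γ, c γ * f (ix γ) e y := by
      intro y
      simp only [hc', Finset.sum_mul, ite_mul, zero_mul]
      rw [Finset.sum_comm]
      exact Finset.sum_congr rfl fun γ _ => by simp
    have h4 := hlast c' (m + 1) (by simpa only [h3] using h1)
    funext γ
    have h5 := h4 (ix γ) (by rw [hix]; exact mem_T.1 γ.2)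
    rw [hc'] at h5
    simp only at h5
    rw [Finset.sum_eq_single γ] at h5
    · simpa using h5
    · intro γ' _ hne
      rw [if_neg fun h => hne (hixinj h)]
    · intro h
      exact absurd (Finset.mem_univ _) h
  have hAsurj := LinearMap.injective_iff_surjective.1 hAinj
  obtain ⟨c, hc⟩ := hAsurj fun β => F1.D (β : Fin n → ℕ) P p
  refine ⟨∑ γ, c γ • f (ix γ), Submodule.sum_mem _ fun γ _ => Submodule.smul_mem _ _ (hfH _), ?_⟩
  obtain ⟨U, hUs, hUo, hpU⟩ := mem_nhds_iff.1 (Filter.inter_mem hP (e.open_target.mem_nhds hp))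
  have hPd : DifferentiableOn ℂ P U := fun y hy => (hUs hy).1.differentiableWithinAt
  have hsdU : DifferentiableOn ℂ (fun y => ∑ γ, c γ * f (ix γ) e y) U :=
    (hsd c).mono fun y hy => (hUs hy).2
  have h1 : VanO (fun y => (∑ γ, c γ * f (ix γ) e y) - P y) p (m + 1) := by
    refine F1.vanish hUo (hsdU.sub hPd) hpU (m + 1) fun β hβ => ?_
    refine (D_sub hUo hsdU hPd β hpU).trans ?_
    rw [sub_eq_zero]
    have h2 := hDs c ⟨β, mem_T.2 hβ⟩
    simp only at h2
    rw [h2]
    exact congrFun hc ⟨β, mem_T.2 hβ⟩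
  simpa only [hse] using h1

end Pool.Agent.helper63.NU
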